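import Mathlib
import Pool.Agent.Q199.Dg.RatX
import Pool.Agent.Q158.EqD.TransApp

/-!
# Blocks of digits of `ζ(3)`, `ζ(3) / π³` and `γ`, at every scale

Let `t` be a real number; the theorems apply to `t = ζ(3)` and to `t = γ`, Euler's constant.

1. For every `d` there is `C` such that for ALL real `t`, all `l ≥ C`, all bases `b`, all places `s` and
   all `n ≥ 1` there is ONE rational function `τ = U / S`, `U, S ∈ ℤ[X]`, with the following
   property: for all the numbers `y = (P(π) t + Q(π)) / R(π)`, `|y| ≤ b^(s+n)`, with `P, Q, R ∈ ℤ[X]`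
   of degree at most `d` with coefficients at most `b^(s+n)`, `P, R ≠ 0`, for which two of the `n + 1`
   blocks of `l (s + n)` digits beginning at the places `s, …, s + n` coincide, the rational
   function `(P τ + Q) / R` is CONSTANT, equal to a rational number `p / q` with `0 < q ≤ b^(s+n)` and
   `|q y - p| < b^(-l (s + n))`: these numbers behave as if `t` were the number `τ(π)` of `ℚ(π)`.
2. For all `d, k` and `0 < τ ≤ T` there is `C` such that for all `t` in `[τ, T]`, all bases `β`, all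
   `s` and `n ≥ 1` there is a line `ℤ (a₀, b₀)`, `b₀ ≠ 0`, such that for all numbers `y = π^a t^b` with
   `|a|, |b| ≤ k`, `(a, b)` off the line, and ALL nonconstant polynomials `P ∈ ℤ[X]` of degree at most
   `d` with coefficients at most `β^(s+n)` the digits of `P(y)` of the places `s, …, s + C (s + n) - 1`
   contain more than `n` different blocks of `n` digits.
3. So for `t = ζ(3)` and `t = γ` all the numbers `t π^m`, `|m| ≤ k`, with at most one exception have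
   this property at every scale; in particular one of `ζ(3)`, `ζ(3) / π³` has it.
4. The same for `t + a π` for all rational numbers `a` with numerator and denominator at most
   `β^(s+n)` with at most one exception, uniformly for `|t| ≤ T`.
5. For every `d` there is `C` such that for all real `t` and all bases `b`: `t = A(π) / B(π)` with
   `A, B ∈ ℤ[X]` of degree at most `d` if and only if for all large `n` there are `P, Q, R` as in 1
   (`s = 0`) such that `(P(π) t + Q(π)) / R(π)` has at most `n` different blocks of `n` digits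
   among its first `C n` digits.
-/

set_option autoImplicit false

open Real Filter Polynomial

namespace Pool.Agent.Results.MP_e48a95_nt.BlocksAtEveryScale

noncomputable section

/-- the digit of the place `n = 0, 1, …` after the point in the base `b` expansion of `x` -/
def digit (b : ℕ) (x : ℝ) (n : ℕ) : ℤ := ⌊x * (b : ℝ) ^ (n + 1)⌋ % (b : ℤ)

/-- two of the `n + 1` blocks of `l` digits of `x` which begin at the places `s, …, s + n`
coincide -/
def Repeats (b : ℕ) (x : ℝ) (s n l : ℕ) : Prop :=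
  ∃ i j, i < j ∧ j ≤ n ∧ ∀ k < l, digit b x (s + i + k) = digit b x (s + j + k)

/-- the number of different blocks of `n` digits among the digits of `x` of the places
`s, …, s + L - 1` -/
def blocks (b : ℕ) (x : ℝ) (s n L : ℕ) : ℕ :=
  ((Finset.range (L + 1 - n)).image fun i => fun k : Fin n => digit b x (s + i + k)).card

/-- the number `(P(π) t + Q(π)) / R(π)` -/
def value (t : ℝ) (P Q R : ℤ[X]) : ℝ := (aeval π P * t + aeval π Q) / aeval π R

/-- `P, R ≠ 0`, the degrees are at most `d`, the coefficients and the number are at most `H` -/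
def Family (d : ℕ) (H t : ℝ) (P Q R : ℤ[X]) : Prop :=
  P ≠ 0 ∧ R ≠ 0 ∧ P.natDegree ≤ d ∧ Q.natDegree ≤ d ∧ R.natDegree ≤ d ∧
    (∀ i, |(P.coeff i : ℝ)| ≤ H) ∧ (∀ i, |(Q.coeff i : ℝ)| ≤ H) ∧ (∀ i, |(R.coeff i : ℝ)| ≤ H) ∧
    |value t P Q R| ≤ H

/-- `ζ(3)` -/
def zeta3 : ℝ := ∑' n : ℕ, 1 / ((n : ℝ) + 1) ^ 3

/-- for all nonconstant polynomials `P` of degree at most `d` with coefficients at most `β^(s+n)` the
digits of `P(y)` of the places `s, …, s + C (s + n) - 1` contain more than `n` different blocks of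
`n` digits -/
def Rich (d C β s n : ℕ) (y : ℝ) : Prop :=
  ∀ P : ℤ[X], 0 < P.natDegree → P.natDegree ≤ d → (∀ i, |(P.coeff i : ℝ)| ≤ (β : ℝ) ^ (s + n)) →
    n < blocks β (aeval y P) s n (C * (s + n))

/-- at the scale `s, n` all the numbers `π ^ a t ^ b` with exponents at most `k` outside one line,
which is not the axis `b = 0`, are rich -/
def OneLine (d k C β s n : ℕ) (t : ℝ) : Prop :=
  ∃ a₀ b₀ : ℤ, b₀ ≠ 0 ∧ ∀ a b : ℤ, |a| ≤ k → |b| ≤ k → a * b₀ ≠ b * a₀ →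
    Rich d C β s n (π ^ a * t ^ b)

/-- at the scale `s, n` all the numbers `t π ^ m` with `|m| ≤ k` with at most one exception are
rich -/
def OneException (d k C β s n : ℕ) (t : ℝ) : Prop :=
  ∃ m₀ : ℤ, ∀ m : ℤ, |m| ≤ k → m ≠ m₀ → Rich d C β s n (t * π ^ m)

theorem one (d : ℕ) : ∃ C₀ : ℕ, 2 ≤ C₀ ∧ ∀ l : ℕ, C₀ ≤ l → ∀ t : ℝ, ∀ b : ℕ, 2 ≤ b →
    ∀ s n : ℕ, 0 < n →
      ∃ U S : ℤ[X], S ≠ 0 ∧ ∀ P Q R : ℤ[X], Family d ((b : ℝ) ^ (s + n)) t P Q R →
        Repeats b (value t P Q R) s n (l * (s + n)) →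
        ∃ p q : ℤ, 0 < q ∧ (q : ℝ) ≤ (b : ℝ) ^ (s + n) ∧
          |value t P Q R * q - p| * (b : ℝ) ^ (l * (s + n)) < 1 ∧
            C q * (P * U + Q * S) = C p * (R * S) :=
  Pool.Agent.Q199.Dg.ratx_one Pool.Agent.Q158.EqD.measR_pi d

theorem lines (d k : ℕ) (τ T : ℝ) (hτ : 0 < τ) : ∃ C : ℕ, ∀ t : ℝ, τ ≤ t → t ≤ T →
    ∀ β : ℕ, 2 ≤ β → ∀ s n : ℕ, 0 < n → OneLine d k C β s n t := by
  obtain ⟨κ, K, h1, h2, h3⟩ := Pool.Agent.Q158.EqD.mono_any π Pool.Agent.Q158.EqD.measR_pi pi_pos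
    τ T hτ d k
  obtain ⟨C1, C2, h4⟩ := Pool.Agent.Q199.Dg.blocks_of_disc κ K h1 h2
  refine ⟨C2, fun t ht0 htT β hβ s n hn => ?_⟩
  obtain ⟨hN, hw, h5⟩ := h4 β hβ s n hn
  obtain ⟨a₀, b₀, hb, h6⟩ := h3 t ht0 htT _ hN
  exact ⟨a₀, b₀, hb, fun a b ha hb' hne P hP0 hPd hPc => h5 _ d (h6 a b ha hb' hne) P hP0 hPd hPc⟩

theorem exception {d k C β s n : ℕ} {t : ℝ} (hk : 1 ≤ k) (h : OneLine d k C β s n t) :
    OneException d k C β s n t := by
  obtain ⟨a₀, b₀, hb, h1⟩ := h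
  refine ⟨a₀ / b₀, fun m hm hne => ?_⟩
  have h2 := h1 m 1 hm (by simpa using hk) (by
    intro h3
    apply hne
    rw [one_mul] at h3
    rw [← h3]
    exact (Int.mul_ediv_cancel m hb).symm)
  rwa [zpow_one, mul_comm] at h2

theorem slopes (d : ℕ) (T : ℝ) : ∃ C : ℕ, ∀ t : ℝ, |t| ≤ T → ∀ β : ℕ, 2 ≤ β → ∀ s n : ℕ, 0 < n →
    ∃ a₀ : ℚ, ∀ a : ℚ, |(a.num : ℝ)| ≤ (β : ℝ) ^ (s + n) → (a.den : ℝ) ≤ (β : ℝ) ^ (s + n) →
      a ≠ a₀ → Rich d C β s n (t + a * π) := by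
  obtain ⟨κ, K, h1, h2, h3⟩ := Pool.Agent.Q158.EqD.aff π Pool.Agent.Q158.EqD.measR_pi T d
  obtain ⟨C1, C2, h4⟩ := Pool.Agent.Q199.Dg.blocks_of_disc κ K h1 h2
  refine ⟨C2, fun t ht β hβ s n hn => ?_⟩
  obtain ⟨hN, hw, h5⟩ := h4 β hβ s n hn
  obtain ⟨a₀, h6⟩ := h3 t ht _ hN
  exact ⟨a₀, fun a ha1 ha2 hne P hP0 hPd hPc => h5 _ d
    (h6 a (ha1.trans hw) (ha2.trans hw) hne) P hP0 hPd hPc⟩

/-- `t = A(π) / B(π)` with `A, B ∈ ℤ[X]` of degree at most `d` -/
def IsQuotient (d : ℕ) (t : ℝ) : Prop :=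
  ∃ A B : ℤ[X], B ≠ 0 ∧ A.natDegree ≤ d ∧ B.natDegree ≤ d ∧ t = aeval π A / aeval π B

theorem criterion (d : ℕ) : ∃ C₀ : ℕ, 2 ≤ C₀ ∧ ∀ b : ℕ, 2 ≤ b → ∀ t : ℝ,
    (IsQuotient d t ↔ ∀ᶠ n : ℕ in atTop, ∃ P Q R : ℤ[X], Family d ((b : ℝ) ^ n) t P Q R ∧
      blocks b (value t P Q R) 0 n (C₀ * n) ≤ n) := by
  obtain ⟨C₀, hC, h⟩ := Pool.Agent.Q199.Dg.ratx_criterion Pool.Agent.Q158.EqD.measR_pi d
  refine ⟨C₀, hC, fun b hb t => Iff.trans ?_ (h b hb t)⟩
  have hpi := Pool.Agent.Q158.EqD.measR_pi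
  constructor
  · rintro ⟨A, B, hB, h1, h2, h3⟩
    refine ⟨B, -A, 1, hB, one_ne_zero, h2, by rw [natDegree_neg]; exact h1, by simp, 0, ?_⟩
    have hB0 := Pool.Agent.Q199.Dg.aeval_neX hpi B hB
    unfold Pool.Agent.Q199.Dg.vx
    rw [h3, map_neg, map_one]
    field_simp
    push_cast
    ring
  · rintro ⟨P, Q, R, hP, hR, h1, h2, h3, r, hr⟩
    have hP0 := Pool.Agent.Q199.Dg.aeval_neX hpi P hP
    have hR0 := Pool.Agent.Q199.Dg.aeval_neX hpi R hR
    have hden : (r.den : ℤ) ≠ 0 := by exact_mod_cast r.den_pos.ne'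
    have hdenR : (r.den : ℝ) ≠ 0 := by exact_mod_cast r.den_pos.ne'
    have hrR : (r : ℝ) = r.num / r.den := by exact_mod_cast (Rat.num_div_den r).symm
    refine ⟨C r.num * R - C (r.den : ℤ) * Q, C (r.den : ℤ) * P,
      mul_ne_zero (by rwa [Ne, C_eq_zero]) hP, ?_, (natDegree_C_mul_le _ _).trans h1, ?_⟩
    · exact (natDegree_sub_le _ _).trans (max_le ((natDegree_C_mul_le _ _).trans h3)
        ((natDegree_C_mul_le _ _).trans h2))
    · unfold Pool.Agent.Q199.Dg.vx at hr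
      rw [div_eq_iff hR0, hrR] at hr
      simp only [map_sub, map_mul, aeval_C]
      simp only [eq_intCast, Int.cast_natCast]
      rw [eq_div_iff (mul_ne_zero hdenR hP0)]
      field_simp at hr
      linear_combination hr

theorem result :
    -- 1. one rational function for each scale, for every real `t`
    (∀ d : ℕ, ∃ C₀ : ℕ, 2 ≤ C₀ ∧ ∀ l : ℕ, C₀ ≤ l → ∀ t : ℝ, ∀ b : ℕ, 2 ≤ b → ∀ s n : ℕ, 0 < n →
      ∃ U S : ℤ[X], S ≠ 0 ∧ ∀ P Q R : ℤ[X], Family d ((b : ℝ) ^ (s + n)) t P Q R →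
        Repeats b (value t P Q R) s n (l * (s + n)) →
        ∃ p q : ℤ, 0 < q ∧ (q : ℝ) ≤ (b : ℝ) ^ (s + n) ∧
          |value t P Q R * q - p| * (b : ℝ) ^ (l * (s + n)) < 1 ∧
            C q * (P * U + Q * S) = C p * (R * S)) ∧
    -- 2. all values of polynomials at `π ^ a t ^ b`
    (∀ (d k : ℕ) (τ T : ℝ), 0 < τ → ∃ C : ℕ, ∀ t : ℝ, τ ≤ t → t ≤ T →
      ∀ β : ℕ, 2 ≤ β → ∀ s n : ℕ, 0 < n → OneLine d k C β s n t) ∧
    -- 3. the constants of the problem
    (∀ d k : ℕ, ∃ C : ℕ, ∀ β : ℕ, 2 ≤ β → ∀ s n : ℕ, 0 < n →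
      OneException d k C β s n zeta3 ∧ OneException d k C β s n Real.eulerMascheroniConstant ∧
      (Rich d C β s n zeta3 ∨ Rich d C β s n (zeta3 / π ^ 3))) ∧
    -- 4. the numbers `t + a π`
    (∀ (d : ℕ) (T : ℝ), ∃ C : ℕ, ∀ t : ℝ, |t| ≤ T → ∀ β : ℕ, 2 ≤ β → ∀ s n : ℕ, 0 < n →
      ∃ a₀ : ℚ, ∀ a : ℚ, |(a.num : ℝ)| ≤ (β : ℝ) ^ (s + n) → (a.den : ℝ) ≤ (β : ℝ) ^ (s + n) →
        a ≠ a₀ → Rich d C β s n (t + a * π)) ∧
    -- 5. the criterion
    (∀ d : ℕ, ∃ C₀ : ℕ, 2 ≤ C₀ ∧ ∀ b : ℕ, 2 ≤ b → ∀ t : ℝ,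
      (IsQuotient d t ↔ ∀ᶠ n : ℕ in atTop, ∃ P Q R : ℤ[X], Family d ((b : ℝ) ^ n) t P Q R ∧
        blocks b (value t P Q R) 0 n (C₀ * n) ≤ n)) := by
  refine ⟨one, lines, ?_, slopes, criterion⟩
  intro d k
  have hz : 0 < zeta3 := by
    have hs : Summable fun n : ℕ => 1 / ((n : ℝ) + 1) ^ 3 := by
      have := (summable_nat_add_iff 1).2 (Real.summable_one_div_nat_pow.2 (by norm_num : 1 < 3))
      simpa using this
    exact hs.tsum_pos (fun n => by positivity) 0 (by norm_num)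
  have hg : 0 < Real.eulerMascheroniConstant := by
    have := Real.one_half_lt_eulerMascheroniConstant
    linarith
  obtain ⟨C, hC⟩ := lines d (k + 3) (min zeta3 Real.eulerMascheroniConstant)
    (max zeta3 Real.eulerMascheroniConstant) (lt_min hz hg)
  refine ⟨C, fun β hβ s n hn => ?_⟩
  have ha := hC _ (min_le_left _ _) (le_max_left _ _) β hβ s n hn
  have hb := hC _ (min_le_right _ _) (le_max_right _ _) β hβ s n hn
  have mono : ∀ t, OneException d (k + 3) C β s n t → OneException d k C β s n t := by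
    rintro t ⟨m₀, h5⟩
    exact ⟨m₀, fun m h6 => h5 m (by push_cast; omega)⟩
  refine ⟨mono _ (exception (by omega) ha), mono _ (exception (by omega) hb), ?_⟩
  obtain ⟨m₀, h5⟩ := exception (by omega) ha
  by_cases h0 : m₀ = 0
  · right
    have := h5 (-3) (by push_cast; norm_num) (by omega)
    have e : zeta3 * π ^ (-3 : ℤ) = zeta3 / π ^ 3 := by
      rw [zpow_neg, div_eq_mul_inv]
      norm_cast
    rwa [e] at this
  · left
    have := h5 0 (by simp; omega) (fun h => h0 h.symm)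
    rwa [zpow_zero, mul_one] at this

end

end Pool.Agent.Results.MP_e48a95_nt.BlocksAtEveryScale
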