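import Mathlib
import Pool.Agent.Q163.LE.Tr
import Pool.Agent.H312R3.M34.Cor

set_option autoImplicit false

/-!
# `ζ(3)`, `ζ(3) / π³` and Euler's constant over fields of Liouville numbers

Call a field `F` of real numbers simultaneously Liouville if for any finitely many elements
`x_1, …, x_m` of `F` and any `w` there are arbitrarily large `q` with `‖q x_i‖ < q ^ (-w)` for all
`i`. Besides `ℚ` such fields are, for instance,

* for a sequence `T_n → ∞` the field of all real numbers `x` which for one `A` and for all `E` have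
  rational approximations of height at most `exp (A T_n)` with an error at most `exp (-E T_n)` for
  all large `n`;
* for an infinite set `S` of integers the field generated by all real numbers `x` whose first `N`
  digits in some base have a partition into `o (log N)` phrases (`N ∈ S`), each of which is a digit
  or a copy of a block which begins earlier.

Over every such field `F`

* each of the triples `1, π², ζ(3)` and `1, ζ(3), π⁴` is linearly independent (so `ζ(3)` is not of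
  the form `x + y π²` or `x + y π⁴` with `x, y ∈ F`);
* for every real `t ≠ 0` (for instance `t = ζ(3)`) all of the numbers `t π^k`, `k ∈ ℤ`, with at
  most one exception are transcendental; in particular one of `ζ(3)`, `ζ(3) / π³` is;
* for every real `t` (for instance Euler's constant) all of the numbers `t + x π`, `x` algebraic
  over `F`, with at most one exception are transcendental.
-/

namespace Pool.Agent.Results.MP_e48a95_nt.OverLiouvilleFields

open Filter Topology Pool.Agent.Q163.LE Pool.Agent.TH456.TM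

/-- `ζ(3) = ∑ 1 / (n+1)^3` -/
noncomputable def zeta3 : ℝ := ∑' n : ℕ, 1 / ((n : ℝ) + 1) ^ 3

/-- the field generated by all real numbers `x` such that, for some base `b`,
`phrases b x N / log N` tends to `0` as `N` tends to infinity in `S` -/
noncomputable def field (S : Set ℕ) : Subfield ℝ := Subfield.closure {x : ℝ | ∃ b : ℕ, 2 ≤ b ∧
  Tendsto (fun N : ℕ => (phrases b x N : ℝ) / Real.log N) (atTop ⊓ 𝓟 S) (𝓝 0)}

theorem indep_four {F : Subfield ℝ} (hF : SimLiouville F) :
    LinearIndependent F ![(1 : ℝ), zeta3, Real.pi ^ 4] := by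
  obtain ⟨c, hc, κ, h⟩ := Pool.Agent.ZF.Mea.pi_all
  refine lin_indep hF _ κ c hc fun z H hz hH hzH => ?_
  have h1 := h (z 0) (z 1) (z 2) (fun h0 => hz (by
    funext i
    fin_cases i
    · exact h0.1
    · exact h0.2.1
    · exact h0.2.2)) H hH (hzH 1) (hzH 2)
  refine h1.trans (le_of_eq ?_)
  rw [Fin.sum_univ_three]
  simp only [Matrix.cons_val_zero, Matrix.cons_val_one, Matrix.cons_val, mul_one]
  rfl

theorem zr2_eq : Pool.Agent.H337R2.zr 2 = Real.pi ^ 2 / 6 := by
  have h1 := (hasSum_nat_add_iff' 1).2 hasSum_zeta_two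
  rw [Finset.sum_range_one] at h1
  simp only [Nat.cast_zero, ne_eq, OfNat.ofNat_ne_zero, not_false_eq_true, zero_pow, div_zero,
    sub_zero] at h1
  have h2 : HasSum (fun n : ℕ => 1 / ((n : ℝ) + 1) ^ 2) (Real.pi ^ 2 / 6) := by
    refine h1.congr_fun fun n => ?_
    push_cast
    rfl
  exact h2.tsum_eq

theorem indep_two {F : Subfield ℝ} (hF : SimLiouville F) :
    LinearIndependent F ![(1 : ℝ), Real.pi ^ 2, zeta3] := by
  obtain ⟨c1, hc1, κ1, hκ1, h1⟩ := Pool.Agent.LM.measure_d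
  obtain ⟨κ2, c2, hκ2, hc2, h2⟩ := measT_pi 2
  have hc : 0 < min c1 c2 := lt_min hc1 hc2
  have key : ∀ (κ : ℝ) (cc : ℝ) (H : ℝ), κ ≤ ((⌈κ1⌉₊ + ⌈κ2⌉₊ : ℕ) : ℝ) → 0 ≤ κ →
      min c1 c2 ≤ cc → 1 ≤ H →
      min c1 c2 / 6 ^ (⌈κ1⌉₊ + ⌈κ2⌉₊) / H ^ (⌈κ1⌉₊ + ⌈κ2⌉₊) ≤ cc * (6 * H) ^ (-κ) := by
    intro κ cc H hκ hκ0 hcc hH
    have h6 : (1 : ℝ) ≤ 6 * H := by linarith
    have h7 : (6 * H) ^ (-((⌈κ1⌉₊ + ⌈κ2⌉₊ : ℕ) : ℝ)) ≤ (6 * H) ^ (-κ) :=
      Real.rpow_le_rpow_of_exponent_le h6 (by linarith)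
    have h8 : min c1 c2 / 6 ^ (⌈κ1⌉₊ + ⌈κ2⌉₊) / H ^ (⌈κ1⌉₊ + ⌈κ2⌉₊) =
        min c1 c2 * (6 * H) ^ (-((⌈κ1⌉₊ + ⌈κ2⌉₊ : ℕ) : ℝ)) := by
      rw [Real.rpow_neg (by positivity), Real.rpow_natCast, mul_pow, div_div, div_eq_mul_inv]
    rw [h8]
    exact mul_le_mul hcc h7 (by positivity) (hc.le.trans hcc)
  have hk1 : κ1 ≤ ((⌈κ1⌉₊ + ⌈κ2⌉₊ : ℕ) : ℝ) := by
    push_cast
    have := Nat.le_ceil κ1
    have h0 : (0 : ℝ) ≤ (⌈κ2⌉₊ : ℝ) := Nat.cast_nonneg _
    linarith
  have hk2 : κ2 ≤ ((⌈κ1⌉₊ + ⌈κ2⌉₊ : ℕ) : ℝ) := by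
    push_cast
    have := Nat.le_ceil κ2
    have h0 : (0 : ℝ) ≤ (⌈κ1⌉₊ : ℝ) := Nat.cast_nonneg _
    linarith
  refine lin_indep hF _ (⌈κ1⌉₊ + ⌈κ2⌉₊) (min c1 c2 / 6 ^ (⌈κ1⌉₊ + ⌈κ2⌉₊)) (by positivity)
    fun z H hz hH hzH => ?_
  have e1 : ∑ i, (z i : ℝ) * ![(1 : ℝ), Real.pi ^ 2, zeta3] i =
      (z 0 : ℝ) + z 1 * Real.pi ^ 2 + z 2 * zeta3 := by
    rw [Fin.sum_univ_three]
    simp only [Matrix.cons_val_zero, Matrix.cons_val_one, Matrix.cons_val, mul_one]
  rw [e1]
  by_cases hz2 : z 2 = 0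
  · have hj : ∀ j, (Polynomial.C (z 0) + Polynomial.C (z 1) * Polynomial.X ^ 2 :
        Polynomial ℤ).coeff j = (if j = 0 then z 0 else 0) + (if j = 2 then z 1 else 0) := by
      intro j
      rw [Polynomial.coeff_add, Polynomial.coeff_C, Polynomial.coeff_C_mul, Polynomial.coeff_X_pow,
        mul_ite, mul_one, mul_zero]
    have hP0 : (Polynomial.C (z 0) + Polynomial.C (z 1) * Polynomial.X ^ 2 : Polynomial ℤ) ≠ 0 := by
      intro h0
      apply hz
      have ha := hj 0
      have hb := hj 2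
      rw [h0, Polynomial.coeff_zero] at ha hb
      rw [if_pos rfl, if_neg (by norm_num), add_zero] at ha
      rw [if_neg (by norm_num), if_pos rfl, zero_add] at hb
      funext i
      fin_cases i
      · exact ha.symm
      · exact hb.symm
      · exact hz2
    have hdeg : (Polynomial.C (z 0) + Polynomial.C (z 1) * Polynomial.X ^ 2 :
        Polynomial ℤ).natDegree ≤ 2 := by
      refine (Polynomial.natDegree_add_le _ _).trans (max_le ?_ ?_)
      · rw [Polynomial.natDegree_C]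
        omega
      · exact Polynomial.natDegree_C_mul_X_pow_le _ _
    have hmain := h2 _ hP0 hdeg H hH (fun j => by
      rw [hj]
      by_cases hj0 : j = 0
      · subst hj0
        simpa using hzH 0
      · by_cases hj2 : j = 2
        · subst hj2
          simpa using hzH 1
        · rw [if_neg hj0, if_neg hj2, add_zero, Int.cast_zero, abs_zero]
          linarith)
    have e2 : (Polynomial.aeval ((Real.pi : ℝ) : ℂ))
        (Polynomial.C (z 0) + Polynomial.C (z 1) * Polynomial.X ^ 2 : Polynomial ℤ) =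
        (((z 0 : ℝ) + z 1 * Real.pi ^ 2 + z 2 * zeta3 : ℝ) : ℂ) := by
      rw [hz2]
      simp
    rw [e2, Complex.norm_real, Real.norm_eq_abs] at hmain
    have hHκ : 0 < H ^ κ2 := by positivity
    refine le_trans (key κ2 c2 H hk2 hκ2 (min_le_right _ _) hH) ?_
    have h6 : (6 * H) ^ (-κ2) ≤ H ^ (-κ2) := by
      refine Real.rpow_le_rpow_of_nonpos (by linarith) (by linarith) (by linarith)
    refine (mul_le_mul_of_nonneg_left h6 hc2.le).trans ?_
    rw [Real.rpow_neg (by linarith), ← div_eq_mul_inv, div_le_iff₀ hHκ, mul_comm]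
    exact hmain
  · have h6H : (1 : ℝ) ≤ 6 * H := by linarith
    have hmain := h1 (z 0) (6 * z 1) (z 2) (6 * H) h6H hz2 (by
      push_cast
      rw [abs_mul, abs_of_pos (by norm_num : (0 : ℝ) < 6)]
      linarith [hzH 1]) (by linarith [hzH 2])
    have e2 : (z 0 : ℝ) + ((6 * z 1 : ℤ) : ℝ) * Pool.Agent.H337R2.zr 2 +
        z 2 * Pool.Agent.H337R2.zr 3 = (z 0 : ℝ) + z 1 * Real.pi ^ 2 + z 2 * zeta3 := by
      have h3 : Pool.Agent.H337R2.zr 3 = zeta3 := rfl
      rw [zr2_eq, h3]
      push_cast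
      ring
    rw [e2] at hmain
    exact (key κ1 c1 H hk1 hκ1.le (min_le_left _ _) hH).trans hmain

/-- **`ζ(3)`, `ζ(3) / π³` and Euler's constant over simultaneously Liouville fields.** -/
theorem result :
    -- examples of such fields
    (∀ (T : ℕ → ℝ) (hT : Tendsto T atTop atTop), SimLiouville (ApField T hT)) ∧
    (∀ S : Set ℕ, S.Infinite → SimLiouville (field S)) ∧
    ∀ F : Subfield ℝ, SimLiouville F →
      -- (1), (2) linear independence over `F`
      LinearIndependent F ![(1 : ℝ), Real.pi ^ 2, zeta3] ∧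
      LinearIndependent F ![(1 : ℝ), zeta3, Real.pi ^ 4] ∧
      -- (3) products with powers of `π`
      (∀ t : ℝ, t ≠ 0 → ∀ j k : ℤ, j ≠ k →
        Transcendental F (t * Real.pi ^ j) ∨ Transcendental F (t * Real.pi ^ k)) ∧
      (Transcendental F zeta3 ∨ Transcendental F (zeta3 / Real.pi ^ 3)) ∧
      -- (4) sums with multiples of `π`
      (∀ t x y : ℝ, IsAlgebraic F x → IsAlgebraic F y → x ≠ y →
        Transcendental F (t + x * Real.pi) ∨ Transcendental F (t + y * Real.pi)) := by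
  refine ⟨sim_apField, sim_lz, fun F hF => ?_⟩
  have hpi : Transcendental F Real.pi := transc_of_measT hF _ measT_pi
  have hind := indep_two hF
  have hp := Real.pi_ne_zero
  have hz : zeta3 ≠ 0 := by
    have := hind.ne_zero 2
    simpa using this
  have hpow : ∀ t : ℝ, t ≠ 0 → ∀ j k : ℤ, j < k → IsAlgebraic F (t * Real.pi ^ j) →
      IsAlgebraic F (t * Real.pi ^ k) → False := by
    intro t ht j k hjk h1 h2
    apply hpi
    obtain ⟨m, hm⟩ : ∃ m : ℕ, k - j = m := ⟨(k - j).toNat, by omega⟩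
    have hm0 : 0 < m := by omega
    have e : Real.pi ^ m = (t * Real.pi ^ k) * (t * Real.pi ^ j)⁻¹ := by
      have h3 : Real.pi ^ k = Real.pi ^ m * Real.pi ^ j := by
        rw [← zpow_natCast, ← hm, ← zpow_add₀ hp]
        congr 1
        ring
      have h4 : t * Real.pi ^ j ≠ 0 := mul_ne_zero ht (zpow_ne_zero _ hp)
      rw [eq_mul_inv_iff_mul_eq₀ h4, h3]
      ring
    have h5 : IsAlgebraic F (Real.pi ^ m) := by
      rw [e]
      exact h2.mul h1.inv
    exact IsAlgebraic.of_pow hm0 h5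
  have hpow' : ∀ t : ℝ, t ≠ 0 → ∀ j k : ℤ, j ≠ k →
      Transcendental F (t * Real.pi ^ j) ∨ Transcendental F (t * Real.pi ^ k) := by
    intro t ht j k hjk
    by_contra hcon
    unfold Transcendental at hcon
    push Not at hcon
    rcases lt_or_gt_of_ne hjk with h1 | h1
    · exact hpow t ht j k h1 hcon.1 hcon.2
    · exact hpow t ht k j h1 hcon.2 hcon.1
  refine ⟨hind, indep_four hF, hpow', ?_, ?_⟩
  · have h1 := hpow' zeta3 hz 0 (-3) (by norm_num)
    have e0 : zeta3 * Real.pi ^ (0 : ℤ) = zeta3 := by rw [zpow_zero, mul_one]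
    have e3 : zeta3 * Real.pi ^ (-3 : ℤ) = zeta3 / Real.pi ^ 3 := by
      rw [div_eq_mul_inv, zpow_neg]
      norm_cast
    rwa [e0, e3] at h1
  · intro t x y hx hy hxy
    by_contra hcon
    unfold Transcendental at hcon
    push Not at hcon
    obtain ⟨h1, h2⟩ := hcon
    apply hpi
    have hd : x - y ≠ 0 := sub_ne_zero.2 hxy
    have e : Real.pi = ((t + x * Real.pi) - (t + y * Real.pi)) * (x - y)⁻¹ := by
      rw [eq_mul_inv_iff_mul_eq₀ hd]
      ring
    rw [e]
    exact (h1.sub h2).mul (hx.sub hy).inv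

end Pool.Agent.Results.MP_e48a95_nt.OverLiouvilleFields
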