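import Mathlib
import Pool.Agent.Q123.SR.Pair
import Pool.Agent.Q123.SR.Sep
import Pool.Agent.H340R2.LW

/-!
# Relations between `π` and an arbitrary number

Let `K` be a subfield of `ℂ` which contains all complex numbers algebraic over `K`, for example the
field of all algebraic numbers, let `x` be a complex number outside `K`, for example `x = π`, and
let `y` be any complex number, for example `ζ(3)`, `ζ(3) / π³` or Euler's constant.

(1) The equation `g + h = 1` has at most six solutions with `g ∉ K` in the group of the numbers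
`a x^s y^t`, `a ∈ K`, `a ≠ 0`, `s`, `t` rational. If there is one, there are exactly six, obtained
from each other by the obvious symmetries, and none of the numbers `x^s y^t`, `(s, t) ≠ (0, 0)`,
is in `K`. Without any assumption the `(s, t)` with `x^s y^t ∈ K` lie on one line.

(2) For `x = π` and every `y ≠ 0` at most one of the numbers `y π^s` (`s` rational), `y + c π^s`
(`s ≠ 0` rational, `c ≠ 0` algebraic) is a nonzero algebraic number.

(3) Let `y ∉ K`. If `P(x) + Q(y) ∈ K` for nonconstant polynomials over `K`, then there are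
nonconstant polynomials `R`, `S` with `R(x) = S(y)` such that `P(x) + Q(y) = c` if and only if
`P = T(R)` and `Q = c - T(S)` for a polynomial `T`.

(4) If `P(x) Q(y) ∈ K`, `≠ 0`, for nonconstant polynomials over `K`, then there are nonconstant
polynomials `R`, `S` with `R(x) S(y) = 1` such that `P(x) Q(y) = c ≠ 0` if and only if
`P = b R^n`, `Q = (c / b) S^n` with `n ≥ 0` and `b ∈ K`, `b ≠ 0`.

(5) The assumptions of (3) and (4) exclude each other.
-/

set_option autoImplicit false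

namespace Pool.Agent.Results.MP_e48a95_nt.RelationsWithPi

open Polynomial

/-- every complex number algebraic over `K` lies in `K` -/
def Closed (K : Subfield ℂ) : Prop := ∀ z : ℂ, IsAlgebraic K z → z ∈ K

/-- the group of the numbers `a x^s y^t`, `a ∈ K`, `a ≠ 0`, `s`, `t` rational -/
def Group (K : Subfield ℂ) (x y : ℂ) : Set ℂ :=
  {z | ∃ a ∈ K, a ≠ 0 ∧ ∃ s t : ℚ, z = a * (x ^ (s : ℂ) * y ^ (t : ℂ))}

/-- the solutions of `g + h = 1` in the group with `g` outside `K` -/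
def Solutions (K : Subfield ℂ) (x y : ℂ) : Set (ℂ × ℂ) :=
  {p | p.1 ∈ Group K x y ∧ p.2 ∈ Group K x y ∧ p.1 + p.2 = 1 ∧ p.1 ∉ K}

/-- the six pairs obtained from `(g, h)` -/
def Six (g h : ℂ) : Set (ℂ × ℂ) :=
  {(g, h), (h, g), (1 / g, -h / g), (-h / g, 1 / g), (1 / h, -g / h), (-g / h, 1 / h)}

theorem six_iff {g h g1 h1 : ℂ} : (g1, h1) ∈ Six g h ↔ Q123.US.Orbit g h g1 h1 := by
  unfold Six Q123.US.Orbit
  simp only [Set.mem_insert_iff, Set.mem_singleton_iff, Prod.mk.injEq]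

theorem mem_group {K : Subfield ℂ} {x y z : ℂ} :
    z ∈ Group K x y ↔ ∃ w : ℚ × ℚ, Q123.SR.Rep2 K x y z w := by
  constructor
  · rintro ⟨a, ha, ha0, s, t, rfl⟩
    exact ⟨(s, t), a, ha, ha0, rfl⟩
  · rintro ⟨w, a, ha, ha0, rfl⟩
    exact ⟨a, ha, ha0, w.1, w.2, rfl⟩

theorem mem_solutions {K : Subfield ℂ} {x y : ℂ} {p : ℂ × ℂ} :
    p ∈ Solutions K x y ↔ ∃ u v : ℚ × ℚ, Q123.SR.Sol2 K x y p.1 p.2 u v := by
  constructor
  · rintro ⟨h1, h2, h3, h4⟩
    obtain ⟨u, hu⟩ := mem_group.mp h1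
    obtain ⟨v, hv⟩ := mem_group.mp h2
    exact ⟨u, v, h3, h4, hu, hv⟩
  · rintro ⟨u, v, S⟩
    exact ⟨mem_group.mpr ⟨u, S.repg⟩, mem_group.mpr ⟨v, S.reph⟩, S.sum, S.trans⟩

theorem trans_of_notMem {K : Subfield ℂ} (hK : Closed K) {z : ℂ} (hz : z ∉ K) :
    Transcendental ℚ z := fun h => hz (hK z (h.extendScalars (algebraMap ℚ K).injective))

theorem solutions_eq {K : Subfield ℂ} (hK : Closed K) {x y : ℂ} (hx : x ≠ 0) (hy : y ≠ 0)
    {p : ℂ × ℂ} (hp : p ∈ Solutions K x y) :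
    Solutions K x y = Six p.1 p.2 ∧ (Solutions K x y).encard = 6 := by
  obtain ⟨u, v, S⟩ := mem_solutions.mp hp
  have h1 : Solutions K x y = Six p.1 p.2 := by
    ext ⟨g1, h1⟩
    rw [six_iff]
    constructor
    · intro h
      obtain ⟨u1, v1, S1⟩ := mem_solutions.mp h
      exact S.orbit hx hy hK S1
    · intro h
      apply mem_solutions.mpr
      rcases h with ⟨h1, h2⟩ | ⟨h1, h2⟩ | ⟨h1, h2⟩ | ⟨h1, h2⟩ | ⟨h1, h2⟩ | ⟨h1, h2⟩
      · exact ⟨_, _, h1 ▸ h2 ▸ S⟩
      · exact ⟨_, _, h1 ▸ h2 ▸ S.swap⟩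
      · exact ⟨_, _, h1 ▸ h2 ▸ S.inv hx hy⟩
      · exact ⟨_, _, h1 ▸ h2 ▸ (S.inv hx hy).swap⟩
      · exact ⟨_, _, h1 ▸ h2 ▸ S.swap.inv hx hy⟩
      · exact ⟨_, _, h1 ▸ h2 ▸ (S.swap.inv hx hy).swap⟩
  refine ⟨h1, ?_⟩
  have ht := trans_of_notMem hK S.trans
  have hg := S.repg.ne_zero hx hy
  have hh := S.reph.ne_zero hx hy
  have hh' : p.2 = 1 - p.1 := by rw [← S.sum]; ring
  have h2 : Solutions K x y =
      Set.range (fun k : Fin 6 => (Q123.US.orb p.1 k, 1 - Q123.US.orb p.1 k)) := by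
    ext ⟨g1, h1'⟩
    constructor
    · intro h
      have hS := mem_solutions.mp h
      obtain ⟨u1, v1, S1⟩ := hS
      have hO := S.orbit hx hy hK S1
      have hk : ∃ k, g1 = Q123.US.orb p.1 k := by
        rw [hh'] at hO hh
        rcases hO with ⟨H, -⟩ | ⟨H, -⟩ | ⟨H, -⟩ | ⟨H, -⟩ | ⟨H, -⟩ | ⟨H, -⟩
        · exact ⟨0, H⟩
        · exact ⟨1, H⟩
        · exact ⟨2, H⟩
        · refine ⟨3, H.trans ?_⟩
          change -(1 - p.1) / p.1 = 1 - 1 / p.1
          field_simp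
          ring
        · exact ⟨4, H⟩
        · refine ⟨5, H.trans ?_⟩
          change -p.1 / (1 - p.1) = 1 - 1 / (1 - p.1)
          field_simp
          ring
      obtain ⟨k, hk⟩ := hk
      refine ⟨k, ?_⟩
      change (Q123.US.orb p.1 k, 1 - Q123.US.orb p.1 k) = (g1, h1')
      rw [← hk]
      have := S1.sum
      simp only at this
      rw [← this]
      simp
    · rintro ⟨k, hk⟩
      rw [← hk]
      obtain ⟨u', v', S'⟩ := S.exists_orb hx hy k
      exact mem_solutions.mpr ⟨u', v', S'⟩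
  have hinj : Function.Injective
      (fun k : Fin 6 => (Q123.US.orb p.1 k, 1 - Q123.US.orb p.1 k)) := by
    intro a b hab
    exact Q123.US.orb_inj ht (Prod.ext_iff.mp hab).1
  rw [h2, ← Set.image_univ, hinj.encard_image, Set.encard_univ, ENat.card_eq_coe_fintype_card,
    Fintype.card_fin]
  rfl

/-- the field of all algebraic numbers -/
noncomputable def Alg : Subfield ℂ := (algebraicClosure ℚ ℂ).toSubfield

theorem mem_Alg {z : ℂ} : z ∈ Alg ↔ IsAlgebraic ℚ z := mem_algebraicClosure_iff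

theorem closed_Alg : Closed Alg := by
  intro z hz
  rw [mem_Alg]
  have h1 : IsAlgebraic (algebraicClosure ℚ ℂ) z := hz
  have h2 : z ∈ algebraicClosure (algebraicClosure ℚ ℂ) ℂ := mem_algebraicClosure_iff.mpr h1
  rw [algebraicClosure.algebraicClosure_eq_bot, IntermediateField.mem_bot] at h2
  obtain ⟨w, rfl⟩ := h2
  exact mem_algebraicClosure_iff.mp w.2

theorem pi_notMem : (Real.pi : ℂ) ∉ Alg := by
  rw [mem_Alg]
  exact Pool.Agent.H340R2.LW.transcendental_pi_complex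

/-- a solution from an algebraic value of `y + c π^s` -/
theorem sol_of_value {y : ℂ} (hy : y ≠ 0) {s : ℚ} (hs : s ≠ 0) {c : ℂ} (hc : c ∈ Alg)
    (hc0 : c ≠ 0) (hN : y + c * (Real.pi : ℂ) ^ (s : ℂ) ∈ Alg)
    (hN0 : y + c * (Real.pi : ℂ) ^ (s : ℂ) ≠ 0) :
    Q123.SR.Sol2 Alg (Real.pi : ℂ) y (y / (y + c * (Real.pi : ℂ) ^ (s : ℂ)))
      (c / (y + c * (Real.pi : ℂ) ^ (s : ℂ)) * (Real.pi : ℂ) ^ (s : ℂ)) (0, 1) (s, 0) := by
  have hpi : ((Real.pi : ℝ) : ℂ) ≠ 0 := by exact_mod_cast Real.pi_ne_zero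
  set N : ℂ := y + c * (Real.pi : ℂ) ^ (s : ℂ) with hNdef
  refine ⟨?_, ?_, ⟨N⁻¹, Alg.inv_mem hN, inv_ne_zero hN0, ?_⟩, ⟨c / N, Alg.div_mem hc hN,
    div_ne_zero hc0 hN0, ?_⟩⟩
  · rw [div_mul_eq_mul_div, ← add_div, ← hNdef, div_self hN0]
  · intro hg
    have hyA : y ∈ Alg := by
      have : y = y / N * N := by field_simp
      rw [this]
      exact Alg.mul_mem hg hN
    have hpA : Q123.SR.mon (Real.pi : ℂ) y (s, 0) ∈ Alg := by
      have : Q123.SR.mon (Real.pi : ℂ) y (s, 0) = (N - y) / c := by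
        unfold Q123.SR.mon
        simp only [Rat.cast_zero, Complex.cpow_zero, mul_one]
        rw [eq_div_iff hc0, hNdef]
        ring
      rw [this]
      exact Alg.div_mem (Alg.sub_mem hN hyA) hc
    have hyA' : Q123.SR.mon (Real.pi : ℂ) y (0, 1) ∈ Alg := by
      unfold Q123.SR.mon
      simpa using hyA
    have h1 := Q123.SR.mono_line hpi hy closed_Alg pi_notMem hpA hyA'
    simp at h1
    exact hs h1
  · unfold Q123.SR.mon
    simp only [Rat.cast_zero, Complex.cpow_zero, Rat.cast_one, Complex.cpow_one, one_mul]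
    rw [div_eq_inv_mul]
  · unfold Q123.SR.mon
    simp only [Rat.cast_zero, Complex.cpow_zero, mul_one]

/-- the exponents `s` with algebraic `y π^s` -/
def Monomials (y : ℂ) : Set ℚ := {s | IsAlgebraic ℚ (y * (Real.pi : ℂ) ^ (s : ℂ))}

/-- the pairs `(s, c)`, `s ≠ 0`, `c ≠ 0` algebraic, with a nonzero algebraic value `y + c π^s` -/
def Sums (y : ℂ) : Set (ℚ × ℂ) :=
  {q | q.1 ≠ 0 ∧ IsAlgebraic ℚ q.2 ∧ q.2 ≠ 0 ∧ y + q.2 * (Real.pi : ℂ) ^ (q.1 : ℂ) ≠ 0 ∧
    IsAlgebraic ℚ (y + q.2 * (Real.pi : ℂ) ^ (q.1 : ℂ))}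

theorem at_most_one {y : ℂ} (hy : y ≠ 0) : (Monomials y).encard + (Sums y).encard ≤ 1 := by
  have hpi : ((Real.pi : ℝ) : ℂ) ≠ 0 := by exact_mod_cast Real.pi_ne_zero
  have hmon : ∀ s, s ∈ Monomials y ↔ Q123.SR.mon (Real.pi : ℂ) y (s, 1) ∈ Alg := by
    intro s
    rw [mem_Alg]
    unfold Q123.SR.mon
    simp only [Rat.cast_one, Complex.cpow_one]
    rw [mul_comm]
    rfl
  rcases Set.eq_empty_or_nonempty (Sums y) with h0 | ⟨⟨s, c⟩, hs, hc, hc0, hN0, hN⟩
  · rw [h0, Set.encard_empty, add_zero, Set.encard_le_one_iff]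
    intro s s' h1 h2
    have h3 := Q123.SR.mono_line hpi hy closed_Alg pi_notMem ((hmon s).mp h1) ((hmon s').mp h2)
    simpa using h3
  · have S := sol_of_value hy hs (mem_Alg.mpr hc) hc0 (mem_Alg.mpr hN) hN0
    have hempty : Monomials y = ∅ := by
      rw [Set.eq_empty_iff_forall_notMem]
      intro r hr
      have h1 := S.mono_zero hpi hy closed_Alg ((hmon r).mp hr)
      exact one_ne_zero (congrArg Prod.snd h1)
    rw [hempty, Set.encard_empty, zero_add, Set.encard_le_one_iff]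
    have key : ∀ q ∈ Sums y, q = (s, c) := by
      rintro ⟨s', c'⟩ ⟨hs', hc', hc0', hN0', hN'⟩
      have S' := sol_of_value hy hs' (mem_Alg.mpr hc') hc0' (mem_Alg.mpr hN') hN0'
      simp only at hN0 hN0' hs hs'
      rcases S.exps hpi hy closed_Alg S' with ⟨H1, H2, -, H4⟩ | ⟨-, -, H3, -⟩ | ⟨H3, -⟩ | ⟨H3, -⟩ |
        ⟨H3, -⟩ | ⟨H3, -⟩
      · have e1 : s' = s := congrArg Prod.fst H4
        subst e1
        have hNN : y + c' * (Real.pi : ℂ) ^ (s' : ℂ) = y + c * (Real.pi : ℂ) ^ (s' : ℂ) := by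
          rw [div_eq_div_iff hN0' hN0] at H1
          exact (mul_left_cancel₀ hy H1).symm
        have hpow : (Real.pi : ℂ) ^ (s' : ℂ) ≠ 0 := by
          rw [Complex.cpow_def_of_ne_zero hpi]
          exact Complex.exp_ne_zero _
        have e2 : c' = c := by
          apply mul_right_cancel₀ hpow
          linear_combination hNN
        rw [e2]
      · have e1 : (1 : ℚ) = 0 := congrArg Prod.snd H3
        exact absurd e1 one_ne_zero
      · have e1 : (1 : ℚ) = -1 := congrArg Prod.snd H3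
        norm_num at e1
      · have e1 : (1 : ℚ) = 0 - 1 := congrArg Prod.snd H3
        norm_num at e1
      · have e1 : (1 : ℚ) = -0 := congrArg Prod.snd H3
        norm_num at e1
      · have e1 : (0 : ℚ) = 0 - s := congrArg Prod.fst H3
        exact absurd (by linarith) hs
    intro q q' h1 h2
    rw [key q h1, key q' h2]

theorem isAlgClosed_of_closed {K : Subfield ℂ} (hK : Closed K) : IsAlgClosed K := by
  refine IsAlgClosed.of_exists_root K fun p hp hirr => ?_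
  have hdeg : (p.map (algebraMap K ℂ)).degree ≠ 0 := by
    rw [degree_map]
    exact hirr.degree_pos.ne'
  obtain ⟨z, hz⟩ := IsAlgClosed.exists_root (p.map (algebraMap K ℂ)) hdeg
  have hzK : z ∈ K := hK z ⟨p, hirr.ne_zero, by
    rw [aeval_def, eval₂_eq_eval_map]
    exact hz⟩
  refine ⟨⟨z, hzK⟩, ?_⟩
  have h1 : algebraMap K ℂ (eval ⟨z, hzK⟩ p) = 0 := by
    rw [← eval₂_at_apply, eval₂_eq_eval_map]
    exact hz
  exact (algebraMap K ℂ).injective (by rw [h1, map_zero])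

/-- **Main result.** -/
theorem result :
    -- (1) two-term relations
    (∀ K : Subfield ℂ, Closed K → ∀ x y : ℂ, x ∉ K → y ≠ 0 →
      (Solutions K x y).encard ≤ 6 ∧
      (∀ p ∈ Solutions K x y, Solutions K x y = Six p.1 p.2 ∧ (Solutions K x y).encard = 6 ∧
        ∀ s t : ℚ, (s ≠ 0 ∨ t ≠ 0) → x ^ (s : ℂ) * y ^ (t : ℂ) ∉ K) ∧
      (∀ s t s' t' : ℚ, x ^ (s : ℂ) * y ^ (t : ℂ) ∈ K → x ^ (s' : ℂ) * y ^ (t' : ℂ) ∈ K →
        s * t' = t * s')) ∧
    -- (2) at most one of the numbers `y π^s`, `y + c π^s`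
    (∀ y : ℂ, y ≠ 0 → (Monomials y).encard + (Sums y).encard ≤ 1) ∧
    -- (3), (4), (5) polynomials
    (∀ K : Subfield ℂ, Closed K → ∀ x y : ℂ, x ∉ K → y ∉ K →
      ((∃ P Q : K[X], P.natDegree ≠ 0 ∧ aeval x P + aeval y Q ∈ K) →
        ∃ R S : K[X], R.natDegree ≠ 0 ∧ S.natDegree ≠ 0 ∧ aeval x R = aeval y S ∧
          ∀ (P Q : K[X]) (c : K), aeval x P + aeval y Q = c ↔
            ∃ T : K[X], P = T.comp R ∧ Q = C c - T.comp S) ∧
      ((∃ P Q : K[X], P.natDegree ≠ 0 ∧ aeval x P * aeval y Q ∈ K ∧ aeval x P * aeval y Q ≠ 0) →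
        ∃ R S : K[X], R.natDegree ≠ 0 ∧ S.natDegree ≠ 0 ∧ aeval x R * aeval y S = 1 ∧
          ∀ (P Q : K[X]) (c : K), c ≠ 0 → (aeval x P * aeval y Q = c ↔
            ∃ (n : ℕ) (b : K), b ≠ 0 ∧ P = C b * R ^ n ∧ Q = C (c / b) * S ^ n)) ∧
      ¬ ((∃ P Q : K[X], P.natDegree ≠ 0 ∧ aeval x P + aeval y Q ∈ K) ∧
        (∃ P Q : K[X], P.natDegree ≠ 0 ∧ aeval x P * aeval y Q ∈ K ∧
          aeval x P * aeval y Q ≠ 0))) ∧
    -- the field of algebraic numbers and `π` satisfy the assumptions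
    (Closed Alg ∧ (∀ z : ℂ, z ∈ Alg ↔ IsAlgebraic ℚ z) ∧ (Real.pi : ℂ) ∉ Alg) := by
  refine ⟨?_, fun y hy => at_most_one hy, ?_, closed_Alg, fun z => mem_Alg, pi_notMem⟩
  · intro K hK x y hxK hy
    have hx : x ≠ 0 := by
      rintro rfl
      exact hxK K.zero_mem
    refine ⟨?_, ?_, ?_⟩
    · rcases Set.eq_empty_or_nonempty (Solutions K x y) with h | ⟨p, hp⟩
      · rw [h, Set.encard_empty]
        exact zero_le
      · rw [(solutions_eq hK hx hy hp).2]
    · intro p hp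
      refine ⟨(solutions_eq hK hx hy hp).1, (solutions_eq hK hx hy hp).2, ?_⟩
      intro s t hst hmem
      obtain ⟨u, v, S⟩ := mem_solutions.mp hp
      have h1 := S.mono_zero hx hy hK (w := (s, t)) hmem
      rcases hst with h | h
      · exact h (congrArg Prod.fst h1)
      · exact h (congrArg Prod.snd h1)
    · intro s t s' t' h1 h2
      exact Q123.SR.mono_line hx hy hK hxK (w := (s, t)) (w' := (s', t')) h1 h2
  · intro K hK x y hxK hyK
    have hx : Transcendental K x := fun h => hxK (hK x h)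
    have hy : Transcendental K y := fun h => hyK (hK y h)
    have hAC := isAlgClosed_of_closed hK
    refine ⟨?_, ?_, ?_⟩
    · rintro ⟨P, Q, hP, hc⟩
      obtain ⟨R, S, h1, h2, h3, -, h4⟩ := Q123.SR.additive hx hy P Q hP ⟨_, hc⟩ rfl
      exact ⟨R, S, h1, h2, h3, h4⟩
    · rintro ⟨P, Q, hP, hc, hc0⟩
      obtain ⟨R, S, h1, h2, h3, -, h4⟩ := Q123.SR.multiplicative hx hy P Q hP ⟨_, hc⟩
        (fun h => hc0 (congrArg Subtype.val h)) rfl
      exact ⟨R, S, h1, h2, h3, h4⟩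
    · rintro ⟨⟨P, Q, hP, hc⟩, ⟨P', Q', hP', hc', hc0'⟩⟩
      exact Q123.SR.dichotomy hx hy P Q P' Q' hP hP' ⟨_, hc⟩ ⟨_, hc'⟩
        (fun h => hc0' (congrArg Subtype.val h)) rfl rfl

end Pool.Agent.Results.MP_e48a95_nt.RelationsWithPi
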